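import Pool.Agent.Q89.FK.Small

/-! Construction of the character. -/

set_option autoImplicit false

open Finset Filter Topology
open scoped InnerProductSpace ComplexConjugate
open Pool.Agent.TH254.FP

namespace Q89.FK

open Pool.Agent.H923R2.FP (FTS)

section lim

variable {A H : Type} [CStarAlgebra A] [NormedAddCommGroup H] [InnerProductSpace ℂ H]
  [CompleteSpace H]

/-- `λ` is an approximate eigenvalue of `a` along `v` -/
def AE (π : A →⋆ₐ[ℂ] (H →L[ℂ] H)) (v : ℕ → H) (a : A) (l : ℂ) : Prop :=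
  Tendsto (fun n => π a (v n) - l • v n) atTop (𝓝 0)

variable {π : A →⋆ₐ[ℂ] (H →L[ℂ] H)} {v : ℕ → H}

theorem AE.one : AE π v 1 1 := by
  have : (fun n => π 1 (v n) - (1 : ℂ) • v n) = fun _ => 0 := by
    funext n
    rw [map_one]; simp
  rw [AE, this]
  exact tendsto_const_nhds

theorem AE.add {a b : A} {l m : ℂ} (h : AE π v a l) (h' : AE π v b m) :
    AE π v (a + b) (l + m) := by
  have := Tendsto.add h h'
  rw [add_zero] at this
  refine this.congr fun n => ?_
  rw [map_add, ContinuousLinearMap.add_apply, add_smul]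
  abel

theorem AE.smul {a : A} {l : ℂ} (c : ℂ) (h : AE π v a l) : AE π v (c • a) (c * l) := by
  have := Tendsto.const_smul h c
  rw [smul_zero] at this
  refine this.congr fun n => ?_
  rw [map_smul, ContinuousLinearMap.smul_apply, smul_sub, smul_smul]

theorem AE.mul {a b : A} {l m : ℂ} (h : AE π v a l) (h' : AE π v b m) :
    AE π v (a * b) (l * m) := by
  have h1 : Tendsto (fun n => π a (π b (v n) - m • v n)) atTop (𝓝 0) := by
    have := ((π a).continuous.tendsto 0).comp h'
    rwa [map_zero] at this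
  have h2 := h1.add (Tendsto.const_smul h m)
  rw [smul_zero, add_zero] at h2
  refine h2.congr fun n => ?_
  rw [map_mul, ContinuousLinearMap.mul_apply, map_sub, map_smul, smul_sub, smul_smul,
    mul_comm m l]
  abel

theorem AE.norm_le (hv : ∀ n, ‖v n‖ = 1) {a : A} {l : ℂ} (h : AE π v a l) : ‖l‖ ≤ ‖π a‖ := by
  have h1 : Tendsto (fun n => ‖π a (v n) - l • v n‖) atTop (𝓝 0) := by
    have := h.norm
    rwa [norm_zero] at this
  have h2 : Tendsto (fun n => ‖π a‖ + ‖π a (v n) - l • v n‖) atTop (𝓝 ‖π a‖) := by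
    simpa using h1.const_add ‖π a‖
  refine ge_of_tendsto' h2 fun n => ?_
  calc ‖l‖ = ‖l • v n‖ := by rw [norm_smul, hv, mul_one]
    _ = ‖π a (v n) - (π a (v n) - l • v n)‖ := by congr 1; abel
    _ ≤ ‖π a (v n)‖ + ‖π a (v n) - l • v n‖ := norm_sub_le _ _
    _ ≤ _ := by
        gcongr
        calc ‖π a (v n)‖ ≤ ‖π a‖ * ‖v n‖ := (π a).le_opNorm _
          _ = ‖π a‖ := by rw [hv, mul_one]

theorem AE.sub {a b : A} {l m : ℂ} (h : AE π v a l) (h' : AE π v b m) :
    AE π v (a - b) (l - m) := by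
  have := h.add (h'.smul (-1))
  rw [neg_one_smul, neg_one_mul, ← sub_eq_add_neg, ← sub_eq_add_neg] at this
  exact this

theorem AE.unique (hv : ∀ n, ‖v n‖ = 1) {a : A} {l m : ℂ} (h : AE π v a l) (h' : AE π v a m) :
    l = m := by
  have := (h.sub h').norm_le hv
  rw [sub_self, map_zero, norm_zero] at this
  exact sub_eq_zero.1 (norm_eq_zero.1 (le_antisymm this (norm_nonneg _)))

/-- the eigenvalues exist on a closed set -/
theorem AE.closed (hv : ∀ n, ‖v n‖ = 1) {S : Set A} (hS : ∀ a ∈ S, ∃ l, AE π v a l) {a : A}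
    (ha : a ∈ closure S) : ∃ l, AE π v a l := by
  obtain ⟨x, hx, hxa⟩ := mem_closure_iff_seq_limit.1 ha
  choose! l hl using hS
  have hπ : ∀ y : A, ‖π y‖ ≤ ‖y‖ := fun y => NonUnitalStarAlgHom.norm_apply_le π y
  have hcau : CauchySeq fun n => l (x n) := by
    rw [Metric.cauchySeq_iff]
    intro ε hε
    obtain ⟨N, hN⟩ := Metric.cauchySeq_iff.1 hxa.cauchySeq ε hε
    refine ⟨N, fun m hm n hn => ?_⟩
    have h1 := ((hl _ (hx m)).sub (hl _ (hx n))).norm_le hv
    rw [dist_eq_norm]
    refine (h1.trans (hπ _)).trans_lt ?_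
    have := hN m hm n hn
    rwa [dist_eq_norm] at this
  obtain ⟨L, hL⟩ := cauchySeq_tendsto_of_complete hcau
  refine ⟨L, ?_⟩
  rw [AE, Metric.tendsto_atTop]
  intro ε hε
  obtain ⟨N1, hN1⟩ := Metric.tendsto_atTop.1 hxa (ε / 3) (by positivity)
  obtain ⟨N2, hN2⟩ := Metric.tendsto_atTop.1 hL (ε / 3) (by positivity)
  set N := max N1 N2
  obtain ⟨M, hM⟩ := Metric.tendsto_atTop.1 (hl _ (hx N)) (ε / 3) (by positivity)
  refine ⟨M, fun n hn => ?_⟩
  rw [dist_zero_right]
  have e : π a (v n) - L • v n = (π (x N) (v n) - l (x N) • v n) + π (a - x N) (v n) +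
      (l (x N) - L) • v n := by
    rw [map_sub, ContinuousLinearMap.sub_apply, sub_smul]
    abel
  have h1 := hM n hn
  rw [dist_zero_right] at h1
  have h2 : ‖π (a - x N) (v n)‖ < ε / 3 := by
    calc ‖π (a - x N) (v n)‖ ≤ ‖π (a - x N)‖ * ‖v n‖ := (π _).le_opNorm _
      _ ≤ ‖a - x N‖ := by rw [hv, mul_one]; exact hπ _
      _ < ε / 3 := by
          have := hN1 N (le_max_left _ _)
          rwa [dist_comm, dist_eq_norm] at this
  have h3 : ‖(l (x N) - L) • v n‖ < ε / 3 := by
    rw [norm_smul, hv, mul_one]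
    have := hN2 N (le_max_right _ _)
    rwa [dist_eq_norm] at this
  rw [e]
  calc _ ≤ _ := norm_add₃_le
    _ < ε := by linarith

/-- a character from approximate eigenvectors -/
theorem exists_char (hv : ∀ n, ‖v n‖ = 1) (G : Set A)
    (hgen : (StarAlgebra.adjoin ℂ G).topologicalClosure = ⊤)
    (hG : ∀ a ∈ G, ∃ l : ℂ, AE π v a l ∧ AE π v (star a) (conj l)) :
    ∃ χ : A →⋆ₐ[ℂ] ℂ, ∀ a, AE π v a (χ a) := by
  have h0 : ∀ a ∈ StarAlgebra.adjoin ℂ G, ∃ l : ℂ, AE π v a l ∧ AE π v (star a) (conj l) := by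
    intro a ha
    induction ha using StarAlgebra.adjoin_induction with
    | mem x hx => exact hG x hx
    | algebraMap r =>
      refine ⟨r, ?_, ?_⟩
      · have := (AE.one (π := π) (v := v)).smul r
        rwa [mul_one, ← Algebra.algebraMap_eq_smul_one] at this
      · have := (AE.one (π := π) (v := v)).smul (conj r)
        rw [mul_one, ← Algebra.algebraMap_eq_smul_one] at this
        rwa [← algebraMap_star_comm]
    | add x y _ _ hx hy =>
      obtain ⟨l, h1, h2⟩ := hx
      obtain ⟨m, h3, h4⟩ := hy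
      refine ⟨l + m, h1.add h3, ?_⟩
      rw [star_add, map_add]
      exact h2.add h4
    | mul x y _ _ hx hy =>
      obtain ⟨l, h1, h2⟩ := hx
      obtain ⟨m, h3, h4⟩ := hy
      refine ⟨l * m, h1.mul h3, ?_⟩
      rw [star_mul, map_mul, mul_comm (conj l)]
      exact h4.mul h2
    | star x _ hx =>
      obtain ⟨l, h1, h2⟩ := hx
      refine ⟨conj l, h2, ?_⟩
      rw [star_star, Complex.conj_conj]
      exact h1
  have h1 : ∀ a : A, ∃ l : ℂ, AE π v a l := by
    intro a
    refine AE.closed (S := (StarAlgebra.adjoin ℂ G : StarSubalgebra ℂ A)) hv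
      (fun b hb => ?_) (a := a) ?_
    · obtain ⟨l, h, -⟩ := h0 b hb
      exact ⟨l, h⟩
    · have : a ∈ (StarAlgebra.adjoin ℂ G).topologicalClosure := by rw [hgen]; trivial
      exact this
  choose χ hχ using h1
  have hcl : Continuous χ := by
    refine Metric.continuous_iff.2 fun b ε hε => ⟨ε, hε, fun a hab => ?_⟩
    rw [dist_eq_norm] at hab ⊢
    exact (((hχ a).sub (hχ b)).norm_le hv).trans_lt
      ((NonUnitalStarAlgHom.norm_apply_le π _).trans_lt hab)
  have hstar : ∀ a, χ (star a) = conj (χ a) := by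
    have hc : IsClosed {a : A | χ (star a) = conj (χ a)} :=
      isClosed_eq (hcl.comp continuous_star) (Complex.continuous_conj.comp hcl)
    intro a
    have ha : a ∈ (StarAlgebra.adjoin ℂ G).topologicalClosure := by rw [hgen]; trivial
    refine hc.closure_subset_iff.2 ?_ ha
    intro b hb
    obtain ⟨l, h2, h3⟩ := h0 b hb
    have e1 := (hχ b).unique hv h2
    have e2 := (hχ (star b)).unique hv h3
    change χ (star b) = conj (χ b)
    rw [e1, e2]
  refine ⟨{ toFun := χ, map_one' := (hχ 1).unique hv AE.one,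
            map_mul' := fun a b => (hχ _).unique hv ((hχ a).mul (hχ b)),
            map_zero' := by
              refine (hχ 0).unique hv ?_
              have := (AE.one (π := π) (v := v)).smul 0
              rwa [zero_smul, zero_mul] at this
            map_add' := fun a b => (hχ _).unique hv ((hχ a).add (hχ b)),
            commutes' := fun r => ?_, map_star' := hstar }, hχ⟩
  refine (hχ _).unique hv ?_
  have := (AE.one (π := π) (v := v)).smul r
  rwa [mul_one, ← Algebra.algebraMap_eq_smul_one] at this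

end lim

/-- **Projections of total trace less than one which generate are killed by a character.** -/
theorem exists_char_small {A : Type} [CStarAlgebra A] {φ : A →ₗ[ℂ] ℂ} (hφ : FTS φ)
    (p : ℕ → A) (hp : ∀ k, star (p k) = p k) (hpp : ∀ k, p k * p k = p k)
    (ht : ∀ n, (∑ k ∈ range n, (φ (p k)).re) < 1)
    (hgen : (StarAlgebra.adjoin ℂ (Set.range p)).topologicalClosure = ⊤) :
    ∃ χ : A →⋆ₐ[ℂ] ℂ, ∀ k, χ (p k) = 0 := by
  have hpos : ∀ a : A, ∃ r : ℝ, 0 ≤ r ∧ φ (star a * a) = r := by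
    intro a
    refine ⟨(φ (star a * a)).re, hφ.nonneg a, ?_⟩
    have h1 := hφ.str (star a * a)
    rw [star_mul, star_star] at h1
    exact (Complex.conj_eq_iff_re.1 h1.symm).symm
  have hf : ∀ a : A, (∀ b : A, φ (star (a * b) * (a * b)) = 0) → a = 0 := by
    intro a ha
    have := ha 1
    rw [mul_one] at this
    exact hφ.faith a (by rw [this, Complex.zero_re])
  obtain ⟨H, _, _, _, π, ξ, hR⟩ := exists_rep φ hφ.one hpos hf
  have hvec : ∀ n : ℕ, ∃ v : H, ‖v‖ = 1 ∧ ∀ k ∈ range (n + 1), ‖π (p k) v‖ ≤ 1 / ((n : ℝ) + 1) := by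
    intro n
    refine vec_small (n + 1) (Nat.succ_ne_zero n) (fun k => π (p k))
      (fun k => by rw [← map_star, hp]) (fun k => by rw [← map_mul, hpp]) ?_ _ (by positivity)
    have h1 := norm_avg hφ (n + 1) (Nat.succ_ne_zero n) p hp hpp (ht (n + 1))
    rw [← NonUnitalStarAlgHom.norm_map π hR.inj] at h1
    refine h1.trans (le_of_eq ?_)
    congr 1
    rw [← Complex.coe_smul, map_smul, map_sum, Complex.coe_smul]
    congr 1
    exact Finset.sum_congr rfl fun k _ => by rw [map_sub, map_one]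
  choose v hv1 hv2 using hvec
  have hAE : ∀ k, AE π v (p k) 0 := by
    intro k
    rw [AE, tendsto_zero_iff_norm_tendsto_zero]
    refine squeeze_zero' (Eventually.of_forall fun n => norm_nonneg _) ?_
      tendsto_one_div_add_atTop_nhds_zero_nat
    filter_upwards [eventually_ge_atTop k] with n hn
    rw [zero_smul, sub_zero]
    exact hv2 n k (mem_range.2 (by omega))
  obtain ⟨χ, hχ⟩ := exists_char (π := π) (v := v) hv1 (Set.range p) hgen (by
    rintro _ ⟨k, rfl⟩
    refine ⟨0, hAE k, ?_⟩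
    rw [hp, map_zero]
    exact hAE k)
  exact ⟨χ, fun k => (hχ (p k)).unique hv1 (hAE k)⟩

end Q89.FK
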