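import Pool.Agent.TH254.FP.Gns

/-! A reduced free product of an algebra with a Haar unitary and a nontrivial algebra has no
character which does not extend the state: the averages of `uⁿ x u⁻ⁿ` tend to `0` in norm. -/

set_option autoImplicit false

open Finset Filter Topology
open scoped InnerProductSpace ComplexConjugate ComplexOrder
open Pool.Agent.TH254.FP

namespace Q89.FK

section orth

variable {H : Type} [NormedAddCommGroup H] [InnerProductSpace ℂ H] [CompleteSpace H]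

/-- operators with orthogonal ranges -/
theorem norm_sum_sq (V : ℕ → H →L[ℂ] H) (h : ∀ m n, m ≠ n → star (V m) * V n = 0) (C : ℝ)
    (hC0 : 0 ≤ C) (hC : ∀ n, ‖V n‖ ≤ C) (N : ℕ) :
    ‖∑ n ∈ range N, V n‖ ≤ Real.sqrt N * C := by
  have h1 : star (∑ n ∈ range N, V n) * (∑ n ∈ range N, V n) =
      ∑ n ∈ range N, star (V n) * V n := by
    rw [star_sum, Finset.sum_mul_sum]
    refine Finset.sum_congr rfl fun m hm => ?_
    rw [Finset.sum_eq_single m]
    · intro n _ hne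
      exact h m n hne.symm
    · intro hm'
      exact absurd hm hm'
  have h2 : ‖∑ n ∈ range N, V n‖ * ‖∑ n ∈ range N, V n‖ ≤ N * (C * C) := by
    rw [← CStarRing.norm_star_mul_self, h1]
    refine (norm_sum_le _ _).trans ?_
    calc ∑ n ∈ range N, ‖star (V n) * V n‖ ≤ ∑ _n ∈ range N, C * C := by
          refine Finset.sum_le_sum fun n _ => ?_
          rw [CStarRing.norm_star_mul_self]
          exact mul_le_mul (hC n) (hC n) (norm_nonneg _) hC0
      _ = N * (C * C) := by simp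
  have h3 : ‖∑ n ∈ range N, V n‖ ^ 2 ≤ (Real.sqrt N * C) ^ 2 := by
    rw [mul_pow, Real.sq_sqrt (Nat.cast_nonneg _), sq, sq]
    exact h2
  exact (pow_le_pow_iff_left₀ (norm_nonneg _) (by positivity) two_ne_zero).1 h3

/-- one half of the averaging estimate -/
theorem half (Q U Y : H →L[ℂ] H) (hQ : star Q = Q) (hU1 : star U * U = 1)
    (hU : ∀ n : ℕ, n ≠ 0 → Q * U ^ n * Q = 0) (C : ℝ) (hC0 : 0 ≤ C) (hQn : ‖Q‖ ≤ 1)
    (hY : ‖Y‖ ≤ C) (N : ℕ) :
    ‖∑ n ∈ range N, U ^ n * (Q * Y) * star (U ^ n)‖ ≤ Real.sqrt N * C := by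
  have hp1 : ∀ n : ℕ, star (U ^ n) * U ^ n = 1 := by
    intro n
    induction n with
    | zero => simp
    | succ n ih =>
      rw [pow_succ, star_mul, mul_assoc, ← mul_assoc (star (U ^ n)), ih, one_mul, hU1]
  have key : ∀ m d : ℕ, d ≠ 0 → Q * (star (U ^ m) * U ^ (m + d)) * Q = 0 := by
    intro m d hd
    rw [pow_add, ← mul_assoc (star (U ^ m)), hp1, one_mul]
    exact hU d hd
  have key2 : ∀ m n : ℕ, m ≠ n → Q * (star (U ^ m) * U ^ n) * Q = 0 := by
    intro m n hmn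
    rcases lt_or_gt_of_ne hmn with h | h
    · obtain ⟨d, rfl⟩ := Nat.exists_eq_add_of_lt h
      have := key m (d + 1) (by omega)
      rwa [← add_assoc] at this
    · obtain ⟨d, rfl⟩ := Nat.exists_eq_add_of_lt h
      have := key n (d + 1) (by omega)
      rw [← add_assoc] at this
      have h2 := congrArg star this
      rw [star_zero, star_mul, star_mul, star_mul, star_star, hQ, ← mul_assoc] at h2
      exact h2
  have hn1 : ∀ n : ℕ, ‖U ^ n‖ ≤ 1 := by
    intro n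
    have h1 : ‖U ^ n‖ * ‖U ^ n‖ ≤ 1 := by
      rw [← CStarRing.norm_star_mul_self, hp1]
      exact ContinuousLinearMap.norm_id_le
    nlinarith [norm_nonneg (U ^ n)]
  refine norm_sum_sq _ ?_ C hC0 ?_ N
  · intro m n hmn
    have : star (U ^ m * (Q * Y) * star (U ^ m)) * (U ^ n * (Q * Y) * star (U ^ n)) =
        U ^ m * star Y * (Q * (star (U ^ m) * U ^ n) * Q) * Y * star (U ^ n) := by
      simp only [star_mul, star_star, hQ, mul_assoc]
    rw [this, key2 m n hmn]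
    simp
  · intro n
    calc ‖U ^ n * (Q * Y) * star (U ^ n)‖ ≤ ‖U ^ n * (Q * Y)‖ * ‖star (U ^ n)‖ := norm_mul_le _ _
      _ ≤ (‖U ^ n‖ * ‖Q * Y‖) * ‖star (U ^ n)‖ := by gcongr; exact norm_mul_le _ _
      _ ≤ (1 * (‖Q‖ * ‖Y‖)) * 1 := by
          gcongr
          · exact hn1 n
          · exact norm_mul_le _ _
          · rw [norm_star]; exact hn1 n
      _ ≤ (1 * (1 * C)) * 1 := by gcongr
      _ = C := by ring

end orth

/-- **Powers averaging.** -/
theorem powers {A : Type} [CStarAlgebra A] {ι : Type} {φ : A →ₗ[ℂ] ℂ} {S : ι → StarSubalgebra ℂ A}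
    (h1 : φ 1 = 1) (hpos : ∀ a : A, ∃ r : ℝ, 0 ≤ r ∧ φ (star a * a) = r)
    (hf : ∀ a : A, (∀ b : A, φ (star (a * b) * (a * b)) = 0) → a = 0) (hF : Free φ S)
    (hgen : (StarAlgebra.adjoin ℂ (⋃ i, (S i : Set A))).topologicalClosure = ⊤)
    {i j : ι} (hij : i ≠ j) (u x : A) (hu : u ∈ S i) (hu1 : star u * u = 1)
    (hun : ∀ n : ℕ, n ≠ 0 → φ (u ^ n) = 0) (hx : x ∈ S j) (hx0 : φ x = 0) (N : ℕ) :
    ‖∑ n ∈ range N, u ^ n * x * star (u ^ n)‖ ≤ 2 * (Real.sqrt N * ‖x‖) := by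
  obtain ⟨H, _, _, _, π, ξ, hR⟩ := exists_rep φ h1 hpos hf
  have hq := hR.fq hF hgen
  set Q := QQ φ S π ξ with hQdef
  have hQn : ‖Q j‖ ≤ 1 := by
    have h2 : ‖Q j‖ * ‖Q j‖ = ‖Q j‖ := by
      rw [← CStarRing.norm_star_mul_self, hq.sa, hq.idem]
    nlinarith [norm_nonneg (Q j), sq_nonneg (‖Q j‖ - 1)]
  have hU : ∀ n : ℕ, n ≠ 0 → Q j * π u ^ n * Q j = 0 := by
    intro n hn
    have h3 := hq.cen i (π (u ^ n)) ⟨u ^ n, pow_mem hu n, hun n hn, rfl⟩
    have h4 : Q j * (1 - Q i) = Q j := by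
      rw [mul_sub, mul_one, hq.orth j i hij.symm, sub_zero]
    have h5 : (1 - Q i) * Q j = Q j := by
      rw [sub_mul, one_mul, hq.orth i j hij, sub_zero]
    have h6 : Q j * ((1 - Q i) * π (u ^ n) * (1 - Q i)) * Q j = 0 := by
      rw [h3]; simp
    rw [← map_pow]
    calc Q j * π (u ^ n) * Q j = (Q j * (1 - Q i)) * π (u ^ n) * ((1 - Q i) * Q j) := by rw [h4, h5]
      _ = Q j * ((1 - Q i) * π (u ^ n) * (1 - Q i)) * Q j := by simp only [mul_assoc]
      _ = 0 := h6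
  have hc := hq.cen j (π x) ⟨x, hx, hx0, rfl⟩
  have hU1 : star (π u) * π u = 1 := by rw [← map_star, ← map_mul, hu1, map_one]
  have hπ : ‖π x‖ = ‖x‖ := NonUnitalStarAlgHom.norm_map π hR.inj x
  -- first part
  have e1 := half (Q j) (π u) (π x) (hq.sa j) hU1 hU ‖x‖ (norm_nonneg _) hQn hπ.le N
  have hY : ‖star (π x) * (1 - Q j)‖ ≤ ‖x‖ := by
    have h7 : ‖(1 : H →L[ℂ] H) - Q j‖ ≤ 1 := by
      have h8 : star ((1 : H →L[ℂ] H) - Q j) * (1 - Q j) = 1 - Q j := by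
        rw [star_sub, star_one, hq.sa]
        have : ((1 : H →L[ℂ] H) - Q j) * (1 - Q j) = 1 - Q j - Q j + Q j * Q j := by noncomm_ring
        rw [this, hq.idem]; abel
      have h9 : ‖(1 : H →L[ℂ] H) - Q j‖ * ‖(1 : H →L[ℂ] H) - Q j‖ = ‖(1 : H →L[ℂ] H) - Q j‖ := by
        rw [← CStarRing.norm_star_mul_self, h8]
      nlinarith [norm_nonneg ((1 : H →L[ℂ] H) - Q j), sq_nonneg (‖(1 : H →L[ℂ] H) - Q j‖ - 1)]
    calc ‖star (π x) * (1 - Q j)‖ ≤ ‖star (π x)‖ * ‖(1 : H →L[ℂ] H) - Q j‖ := norm_mul_le _ _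
      _ ≤ ‖x‖ * 1 := by
          gcongr
          rw [norm_star, hπ]
      _ = ‖x‖ := mul_one _
  have e2 := half (Q j) (π u) (star (π x) * (1 - Q j)) (hq.sa j) hU1 hU ‖x‖ (norm_nonneg _)
    hQn hY N
  have e3 : ‖∑ n ∈ range N, π u ^ n * ((1 - Q j) * π x * Q j) * star (π u ^ n)‖ ≤
      Real.sqrt N * ‖x‖ := by
    rw [← norm_star, star_sum]
    refine le_trans (le_of_eq ?_) e2
    congr 1
    refine Finset.sum_congr rfl fun n _ => ?_
    simp only [star_mul, star_star, star_sub, star_one, hq.sa, mul_assoc]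
  have hdec : π x = Q j * π x + (1 - Q j) * π x * Q j := by
    have : π x = Q j * π x + (1 - Q j) * π x * Q j + (1 - Q j) * π x * (1 - Q j) := by noncomm_ring
    rw [hc, add_zero] at this
    exact this
  have hsum : π (∑ n ∈ range N, u ^ n * x * star (u ^ n)) =
      ∑ n ∈ range N, π u ^ n * (Q j * π x) * star (π u ^ n) +
      ∑ n ∈ range N, π u ^ n * ((1 - Q j) * π x * Q j) * star (π u ^ n) := by
    rw [map_sum, ← Finset.sum_add_distrib]
    refine Finset.sum_congr rfl fun n _ => ?_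
    rw [← add_mul, ← mul_add, ← hdec, map_mul, map_mul, map_star, map_pow]
  rw [← NonUnitalStarAlgHom.norm_map π hR.inj, hsum, two_mul]
  exact (norm_add_le _ _).trans (add_le_add e1 e3)

/-- **A character kills the centred elements which are free from a Haar unitary.** -/
theorem char_zero {A : Type} [CStarAlgebra A] {ι : Type} {φ : A →ₗ[ℂ] ℂ}
    {S : ι → StarSubalgebra ℂ A} (h1 : φ 1 = 1)
    (hpos : ∀ a : A, ∃ r : ℝ, 0 ≤ r ∧ φ (star a * a) = r)
    (hf : ∀ a : A, (∀ b : A, φ (star (a * b) * (a * b)) = 0) → a = 0) (hF : Free φ S)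
    (hgen : (StarAlgebra.adjoin ℂ (⋃ i, (S i : Set A))).topologicalClosure = ⊤)
    {i j : ι} (hij : i ≠ j) (u x : A) (hu : u ∈ S i) (hu1 : star u * u = 1)
    (hun : ∀ n : ℕ, n ≠ 0 → φ (u ^ n) = 0) (hx : x ∈ S j) (hx0 : φ x = 0)
    (χ : A →⋆ₐ[ℂ] ℂ) : χ x = 0 := by
  have hχ : ∀ N : ℕ, χ (∑ n ∈ range N, u ^ n * x * star (u ^ n)) = N * χ x := by
    intro N
    rw [map_sum]
    have h2 : ∀ n : ℕ, star (u ^ n) * u ^ n = 1 := by
      intro n
      induction n with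
      | zero => simp
      | succ n ih =>
        rw [pow_succ, star_mul, mul_assoc, ← mul_assoc (star (u ^ n)), ih, one_mul, hu1]
    have : ∀ n ∈ range N, χ (u ^ n * x * star (u ^ n)) = χ x := by
      intro n _
      rw [map_mul, map_mul, mul_comm, ← mul_assoc, ← map_mul, h2, map_one, one_mul]
    rw [Finset.sum_congr rfl this]
    simp
  by_contra hne
  have hpos' : 0 < ‖χ x‖ := norm_pos_iff.2 hne
  have hb : ∀ N : ℕ, N * ‖χ x‖ ≤ 2 * (Real.sqrt N * ‖x‖) := by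
    intro N
    have h2 := powers h1 hpos hf hF hgen hij u x hu hu1 hun hx hx0 N
    have h3 : ‖χ (∑ n ∈ range N, u ^ n * x * star (u ^ n))‖ ≤
      ‖∑ n ∈ range N, u ^ n * x * star (u ^ n)‖ := NonUnitalStarAlgHom.norm_apply_le χ _
    rw [hχ, norm_mul, Complex.norm_natCast] at h3
    exact h3.trans h2
  obtain ⟨K, hK⟩ := exists_nat_gt (2 * ‖x‖ / ‖χ x‖)
  have h4 := hb ((K + 1) ^ 2)
  have h5 : Real.sqrt (((K + 1) ^ 2 : ℕ) : ℝ) = K + 1 := by
    push_cast
    exact Real.sqrt_sq (by positivity)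
  rw [h5] at h4
  push_cast at h4
  rw [div_lt_iff₀ hpos'] at hK
  have h6 : (0 : ℝ) < K + 1 := by positivity
  have h7 : ((K : ℝ) + 1) * ‖χ x‖ ≤ 2 * ‖x‖ := by
    have : ((K : ℝ) + 1) * (((K : ℝ) + 1) * ‖χ x‖) ≤ ((K : ℝ) + 1) * (2 * ‖x‖) := by nlinarith
    exact le_of_mul_le_mul_left this h6
  nlinarith

end Q89.FK
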