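import Pool.Agent.TH254.FP.Gns
import Pool.Agent.H923R2.FP.Defs

/-! Projections of small total trace are killed by a character. -/

set_option autoImplicit false

open Finset Filter Topology
open scoped InnerProductSpace ComplexConjugate
open Pool.Agent.TH254.FP

namespace Q89.FK

open Pool.Agent.H923R2.FP (FTS)

/-- the average of the complements has norm one -/
theorem norm_avg {A : Type} [CStarAlgebra A] {φ : A →ₗ[ℂ] ℂ} (hφ : FTS φ) (n : ℕ) (hn : n ≠ 0)
    (p : ℕ → A) (hp : ∀ k, star (p k) = p k) (hpp : ∀ k, p k * p k = p k)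
    (ht : (∑ k ∈ range n, (φ (p k)).re) < 1) :
    1 ≤ ‖(n : ℝ)⁻¹ • ∑ k ∈ range n, (1 - p k)‖ := by
  classical
  let _ : PartialOrder A := CStarAlgebra.spectralOrder A
  have : StarOrderedRing A := CStarAlgebra.spectralOrderedRing A
  have hnt : Nontrivial A := ⟨1, 0, fun h => by
    have h1 := hφ.one
    rw [h, map_zero] at h1
    exact zero_ne_one h1⟩
  by_contra hlt
  rw [not_le] at hlt
  have hn0 : (0 : ℝ) < n := Nat.cast_pos.2 (Nat.pos_of_ne_zero hn)
  set a : A := (n : ℝ)⁻¹ • ∑ k ∈ range n, (1 - p k) with ha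
  have hasa : IsSelfAdjoint a := by
    rw [IsSelfAdjoint, ha, star_smul, star_sum]
    congr 1
    exact Finset.sum_congr rfl fun k _ => by rw [star_sub, star_one, hp]
  set b : A := 1 - a with hb
  have hbs : b = (n : ℝ)⁻¹ • ∑ k ∈ range n, p k := by
    rw [hb, ha, Finset.sum_sub_distrib, smul_sub, Finset.sum_const, card_range,
      ← Nat.cast_smul_eq_nsmul ℝ, smul_smul, inv_mul_cancel₀ hn0.ne', one_smul]
    abel
  have hb1 : algebraMap ℝ A (1 - ‖a‖) ≤ b := by
    have := hasa.le_algebraMap_norm_self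
    rw [hb, map_sub, map_one]
    exact sub_le_sub_left this 1
  have hpos0 : IsStrictlyPositive (algebraMap ℝ A (1 - ‖a‖)) :=
    isStrictlyPositive_algebraMap (by linarith)
  have hbp : IsStrictlyPositive b := hpos0.of_le hb1
  set c : A := b ^ (-(1 / 2) : ℝ) with hc
  have hcs : star c = c := (IsSelfAdjoint.of_nonneg CFC.rpow_nonneg : IsSelfAdjoint c)
  have hcbc : c * b * c = 1 := CFC.conjugate_rpow_neg_one_half b
  have hpn : ∀ k, 0 ≤ p k := fun k => by
    have h1 : p k = star (p k) * p k := by rw [hp, hpp]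
    rw [h1]; exact star_mul_self_nonneg _
  -- monotonicity of the trace
  have hmono : ∀ x y : A, x ≤ y → (φ x).re ≤ (φ y).re := by
    intro x y hxy
    obtain ⟨d, hd⟩ := CStarAlgebra.nonneg_iff_eq_star_mul_self.1 (sub_nonneg.2 hxy)
    have h1 := hφ.nonneg d
    rw [← hd, map_sub, Complex.sub_re] at h1
    linarith
  -- the estimate for one projection
  have key : ∀ k ∈ range n, (φ (c * p k * c)).re ≤ n * (φ (p k)).re := by
    intro k hk
    have hle : p k ≤ (n : ℝ) • b := by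
      rw [hbs, smul_smul, mul_inv_cancel₀ hn0.ne', one_smul]
      exact Finset.single_le_sum (fun i _ => hpn i) hk
    have h2 : c * p k * c ≤ algebraMap ℝ A n := by
      have h3 := star_left_conjugate_le_conjugate hle c
      rw [hcs, mul_smul_comm, smul_mul_assoc, hcbc] at h3
      rwa [Algebra.algebraMap_eq_smul_one]
    have h4 : 0 ≤ c * p k * c := by
      have := star_left_conjugate_nonneg (hpn k) c
      rwa [hcs] at this
    have h5 : ‖c * p k * c‖ ≤ n := by
      have h6 := CStarAlgebra.norm_le_norm_of_nonneg_of_le h4 h2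
      rw [norm_algebraMap'] at h6
      simpa using h6
    have h7 : ‖star (c * p k) * (c * p k)‖ ≤ n := by
      rw [CStarRing.norm_star_mul_self, ← CStarRing.norm_self_mul_star, star_mul, hp, hcs]
      have : c * p k * (p k * c) = c * p k * c := by
        rw [mul_assoc, ← mul_assoc (p k), hpp, mul_assoc]
      rwa [this]
    set z : A := star (c * p k) * (c * p k) with hz
    have hz2 : z ≤ (n : ℝ) • p k := by
      have h8 : z ≤ algebraMap ℝ A n := by
        have h9 : z ≤ algebraMap ℝ A ‖z‖ :=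
          (IsSelfAdjoint.star_mul_self (c * p k)).le_algebraMap_norm_self
        exact h9.trans (by
          rw [← sub_nonneg, ← map_sub]
          have h10 : (0 : ℝ) ≤ n - ‖z‖ := sub_nonneg.2 h7
          rw [Algebra.algebraMap_eq_smul_one]
          exact smul_nonneg h10 zero_le_one)
      have h11 := star_left_conjugate_le_conjugate h8 (p k)
      have h12 : star (p k) * z * p k = z := by
        rw [hz, star_mul, hp, hcs]
        calc p k * (p k * c * (c * p k)) * p k = (p k * p k) * c * (c * (p k * p k)) := by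
              simp only [mul_assoc]
          _ = _ := by rw [hpp]
      rw [h12, hp, Algebra.algebraMap_eq_smul_one, mul_smul_comm, mul_one, smul_mul_assoc,
        hpp] at h11
      exact h11
    have h13 : φ (c * p k * c) = φ z := by
      have : c * p k * c = (c * p k) * (p k * c) := by
        rw [mul_assoc c (p k) (p k * c), ← mul_assoc (p k) (p k) c, hpp, mul_assoc]
      rw [this, hφ.comm, hz, star_mul, hp, hcs]
    rw [h13]
    refine (hmono _ _ hz2).trans (le_of_eq ?_)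
    rw [← Complex.coe_smul, map_smul, smul_eq_mul]
    simp
  have h1 : (1 : ℝ) = (n : ℝ)⁻¹ * ∑ k ∈ range n, (φ (c * p k * c)).re := by
    have h2 : φ (c * b * c) = 1 := by rw [hcbc, hφ.one]
    rw [hbs, mul_smul_comm, smul_mul_assoc, Finset.mul_sum, Finset.sum_mul, ← Complex.coe_smul,
      map_smul, map_sum, smul_eq_mul] at h2
    have h3 := congrArg Complex.re h2
    rw [Complex.re_ofReal_mul, Complex.re_sum, Complex.one_re] at h3
    exact h3.symm
  have h2 : (n : ℝ)⁻¹ * ∑ k ∈ range n, (φ (c * p k * c)).re ≤ ∑ k ∈ range n, (φ (p k)).re := by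
    calc (n : ℝ)⁻¹ * ∑ k ∈ range n, (φ (c * p k * c)).re
        ≤ (n : ℝ)⁻¹ * ∑ k ∈ range n, n * (φ (p k)).re := by
          gcongr with k hk
          exact key k hk
      _ = ∑ k ∈ range n, (φ (p k)).re := by
          rw [← Finset.mul_sum, ← mul_assoc, inv_mul_cancel₀ hn0.ne', one_mul]
  linarith

/-- almost common fixed vectors of projections -/
theorem vec_small {H : Type} [NormedAddCommGroup H] [InnerProductSpace ℂ H] [CompleteSpace H]
    (n : ℕ) (hn : n ≠ 0) (P : ℕ → H →L[ℂ] H) (hp : ∀ k, star (P k) = P k)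
    (hpp : ∀ k, P k * P k = P k) (h1 : 1 ≤ ‖(n : ℝ)⁻¹ • ∑ k ∈ range n, (1 - P k)‖)
    (ε : ℝ) (hε : 0 < ε) : ∃ ξ : H, ‖ξ‖ = 1 ∧ ∀ k ∈ range n, ‖P k ξ‖ ≤ ε := by
  have hn0 : (0 : ℝ) < n := Nat.cast_pos.2 (Nat.pos_of_ne_zero hn)
  set T : H →L[ℂ] H := (n : ℝ)⁻¹ • ∑ k ∈ range n, (1 - P k) with hT
  -- Pythagoras
  have hpy : ∀ k (v : H), ‖(1 - P k) v‖ ^ 2 + ‖P k v‖ ^ 2 = ‖v‖ ^ 2 := by
    intro k v
    have e : v = (1 - P k) v + P k v := by
      simp
    have horth : ⟪(1 - P k) v, P k v⟫_ℂ = 0 := by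
      rw [inner_star_mul, star_sub, star_one, hp, sub_mul, one_mul, hpp, sub_self]
      simp
    have h2 := norm_add_sq_eq_norm_sq_add_norm_sq_of_inner_eq_zero _ _ horth
    rw [← e] at h2
    nlinarith [h2]
  have hle : ∀ k (v : H), ‖(1 - P k) v‖ ≤ ‖v‖ := by
    intro k v
    have := hpy k v
    exact (pow_le_pow_iff_left₀ (norm_nonneg _) (norm_nonneg _) two_ne_zero).1
      (by nlinarith [sq_nonneg ‖P k v‖])
  -- choice of the vector
  set δ : ℝ := min (1 / 2) (ε ^ 2 / (4 * n)) with hδ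
  have hδ0 : 0 < δ := lt_min (by norm_num) (by positivity)
  obtain ⟨v, hv⟩ : ∃ v : H, (1 - δ) * ‖v‖ < ‖T v‖ := by
    by_contra hcon
    push Not at hcon
    have : ‖T‖ ≤ 1 - δ := ContinuousLinearMap.opNorm_le_bound _
      (by have : δ ≤ 1 / 2 := min_le_left _ _; linarith) hcon
    linarith
  have hv0 : ‖v‖ ≠ 0 := by
    intro h0
    have : v = 0 := norm_eq_zero.1 h0
    rw [this] at hv
    simp at hv
  set ξ : H := (‖v‖⁻¹ : ℝ) • v with hξ
  have hξ1 : ‖ξ‖ = 1 := by
    rw [hξ, norm_smul, norm_inv, norm_norm, inv_mul_cancel₀ hv0]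
  refine ⟨ξ, hξ1, fun k hk => ?_⟩
  have hTξ : 1 - δ < ‖T ξ‖ := by
    rw [hξ, ← Complex.coe_smul, map_smul, norm_smul, Complex.norm_real, norm_inv, norm_norm]
    rw [lt_inv_mul_iff₀ (lt_of_le_of_ne (norm_nonneg _) (Ne.symm hv0)), mul_comm]
    exact hv
  have h3 : ‖T ξ‖ ≤ (n : ℝ)⁻¹ * ∑ j ∈ range n, ‖(1 - P j) ξ‖ := by
    have : T ξ = ((n : ℝ)⁻¹) • ∑ j ∈ range n, (1 - P j) ξ := by
      rw [hT]
      simp
    rw [this, norm_smul, norm_inv, Real.norm_natCast]
    gcongr
    exact norm_sum_le _ _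
  have h4 : ∑ j ∈ range n, ‖(1 - P j) ξ‖ ≤ (n - 1) + ‖(1 - P k) ξ‖ := by
    rw [← Finset.sum_erase_add _ _ hk]
    have : ∑ j ∈ (range n).erase k, ‖(1 - P j) ξ‖ ≤ ∑ _j ∈ (range n).erase k, (1 : ℝ) :=
      Finset.sum_le_sum fun j _ => (hle j ξ).trans hξ1.le
    rw [Finset.sum_const, card_erase_of_mem hk, card_range, nsmul_eq_mul, mul_one,
      Nat.cast_sub (Nat.one_le_iff_ne_zero.2 hn), Nat.cast_one] at this
    linarith
  have h5 : 1 - n * δ ≤ ‖(1 - P k) ξ‖ := by
    have h6 : 1 - δ < (n : ℝ)⁻¹ * ((n - 1) + ‖(1 - P k) ξ‖) :=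
      hTξ.trans_le (h3.trans (by gcongr))
    rw [lt_inv_mul_iff₀ hn0] at h6
    nlinarith
  have h7 := hpy k ξ
  rw [hξ1] at h7
  have h8 : n * δ ≤ ε ^ 2 / 4 := by
    have : δ ≤ ε ^ 2 / (4 * n) := min_le_right _ _
    calc (n : ℝ) * δ ≤ n * (ε ^ 2 / (4 * n)) := by gcongr
      _ = ε ^ 2 / 4 := by field_simp
  have h9 : ‖P k ξ‖ ^ 2 ≤ ε ^ 2 := by
    by_cases h10 : 1 ≤ ε
    · nlinarith [sq_nonneg ‖(1 - P k) ξ‖, norm_nonneg (P k ξ)]
    · push Not at h10
      have h11 : 0 ≤ 1 - ε ^ 2 / 4 := by nlinarith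
      have h12 : 1 - ε ^ 2 / 4 ≤ ‖(1 - P k) ξ‖ := by linarith
      have h13 : (1 - ε ^ 2 / 4) ^ 2 ≤ ‖(1 - P k) ξ‖ ^ 2 := by gcongr
      nlinarith [sq_nonneg (ε ^ 2 / 4)]
  exact (pow_le_pow_iff_left₀ (norm_nonneg _) hε.le two_ne_zero).1 h9

end Q89.FK
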